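import Pool.Agent.Helper77.RS.Dy7

open Filter

namespace Pool.Agent.Results.MP_21f43f_nt.BlockCovariance

/-- multiplicity of `s` as a zero of the Riemann zeta function (order of vanishing at `s`) -/
noncomputable def zmult (s : ℂ) : ℕ := analyticOrderNatAt riemannZeta s

/-- the number of nontrivial zeros of `ζ` with ordinate in `(0, t]`, with multiplicity -/
noncomputable def NZ (t : ℝ) : ℕ :=
  ∑ᶠ s ∈ {s : ℂ | riemannZeta s = 0 ∧ 0 < s.re ∧ s.re < 1 ∧ 0 < s.im ∧ s.im ≤ t}, zmult s

/-- for `n ≥ 1`: the `n`-th positive ordinate `γ n` of a nontrivial zero of `ζ`, the ordinates being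
listed in nondecreasing order and repeated according to multiplicity -/
noncomputable def γ (n : ℕ) : ℝ := sInf {t : ℝ | n ≤ NZ t}

/-- the normalised gaps `δ_n = (γ_{n+1} log γ_{n+1} - γ_n log γ_n) / 2π` -/
noncomputable def δ (n : ℕ) : ℝ :=
  (γ (n + 1) * Real.log (γ (n + 1)) - γ n * Real.log (γ n)) / (2 * Real.pi)

/-- the centred sum of the normalised gaps over the block of indices `[n + a r, n + b r)` -/
noncomputable def B (r a b n : ℕ) : ℝ := ∑ m ∈ Finset.Ico (n + a * r) (n + b * r), (δ m - 1)

/-- the mean of `f` over the first `N` indices -/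
noncomputable def avg (N : ℕ) (f : ℕ → ℝ) : ℝ := (∑ n ∈ Finset.Icc 1 N, f n) / N

/-- the indicator of the equality of two end points -/
def e (i j : ℕ) : ℝ := if i = j then 1 else 0

/-- On the Riemann hypothesis the covariance of the sums of normalised gaps over two blocks
`[n + a r, n + b r)` and `[n + c r, n + d r)` is
`(1/2π²) log r (e(a,c) + e(b,d) - e(a,d) - e(b,c)) + o(log r)` as `r → ∞`, exactly as for the GUE.
So the variance of the distance to the `r`-th neighbour is `~ (1/π²) log r`, adjacent blocks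
have correlation `-1/2`, and blocks without a common end point (even overlapping ones) are
asymptotically uncorrelated. -/
theorem result (RH : RiemannHypothesis) (a b c d : ℕ) (hab : a ≤ b) (hcd : c ≤ d) (ε : ℝ) (hε : 0 < ε) :
    ∀ᶠ r : ℕ in atTop, ∀ᶠ N : ℕ in atTop,
      |avg N (fun n => B r a b n * B r c d n) -
        Real.log r / (2 * Real.pi ^ 2) * (e a c + e b d - e a d - e b c)| ≤ ε * Real.log r := by
  have hB : ∀ r s t n : ℕ, s ≤ t → B r s t n = Helper77.RS.XX r t n - Helper77.RS.XX r s n := by
    intro r s t n hst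
    unfold B Helper77.RS.XX
    have h1 : t * r = s * r + (t - s) * r := by rw [← add_mul, Nat.add_sub_cancel' hst]
    rw [h1, Helper77.RS.sp_add, Finset.sum_Ico_eq_sum_range, Finset.sum_sub_distrib]
    have h2 : n + (s * r + (t - s) * r) - (n + s * r) = (t - s) * r := by omega
    rw [h2]
    have h3 : ∑ k ∈ Finset.range ((t - s) * r), δ (n + s * r + k) = H707.NB.sp (n + s * r) ((t - s) * r) :=
      H707.NB.sp_sum _ _
    rw [h3, Finset.sum_const, Finset.card_range, nsmul_eq_mul, Nat.cast_mul, Nat.cast_sub hst]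
    ring
  filter_upwards [Helper77.RS.cov_all RH a b c d hε] with r hr
  filter_upwards [hr, eventually_gt_atTop 0] with N hN hN0
  have hNpos : (0 : ℝ) < N := by exact_mod_cast hN0
  unfold avg
  simp_rw [hB r _ _ _ hab, hB r _ _ _ hcd]
  unfold Helper77.RS.kap at hN
  have e1 : (∑ n ∈ Finset.Icc 1 N, (Helper77.RS.XX r b n - Helper77.RS.XX r a n) * (Helper77.RS.XX r d n - Helper77.RS.XX r c n)) / N -
      Real.log r / (2 * Real.pi ^ 2) * (e a c + e b d - e a d - e b c) =
      (∑ n ∈ Finset.Icc 1 N, (Helper77.RS.XX r b n - Helper77.RS.XX r a n) * (Helper77.RS.XX r d n - Helper77.RS.XX r c n) -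
        ((if a = c then 1 else 0) + (if b = d then 1 else 0) - (if a = d then 1 else 0) - (if b = c then 1 else 0)) / 2 *
        (Real.log r / Real.pi ^ 2) * N) / N := by
    unfold e
    field_simp
  rw [e1, abs_div, abs_of_pos hNpos, div_le_iff₀ hNpos]
  exact hN

end Pool.Agent.Results.MP_21f43f_nt.BlockCovariance
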