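import Pool.Agent.Helper37.GL.Gap2
import Pool.Agent.Helper37.GL.Zeta

open Finset Filter

namespace Pool.Agent.Results.MP_21f43f_nt.GapRigidity

/-- multiplicity of `s` as a zero of the Riemann zeta function (order of vanishing at `s`) -/
noncomputable def zmult (s : ℂ) : ℕ := analyticOrderNatAt riemannZeta s

/-- the number of nontrivial zeros of `ζ` with ordinate in `(0, t]`, with multiplicity -/
noncomputable def NZ (t : ℝ) : ℕ :=
  ∑ᶠ s ∈ {s : ℂ | riemannZeta s = 0 ∧ 0 < s.re ∧ s.re < 1 ∧ 0 < s.im ∧ s.im ≤ t}, zmult s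

/-- for `n ≥ 1`: the `n`-th positive ordinate `γ n` of a nontrivial zero of `ζ`, the ordinates being
listed in nondecreasing order and repeated according to multiplicity -/
noncomputable def γ (n : ℕ) : ℝ := sInf {t : ℝ | n ≤ NZ t}

/-- the normalised ordinate `γ_n log γ_n / 2π` -/
noncomputable def γt (n : ℕ) : ℝ := γ n * Real.log (γ n) / (2 * Real.pi)

/-- the normalised gap `δ_n` between the `n`-th and the `(n+1)`-st zero -/
noncomputable def δ (n : ℕ) : ℝ := γt (n + 1) - γt n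

/-- the sum `δ_{m-ℓ} + … + δ_{m+ℓ}` of the `2ℓ+1` gaps around `δ_m` (for `m > ℓ`) -/
noncomputable def block (ℓ m : ℕ) : ℝ := ∑ i ∈ range (2 * ℓ + 1), δ (m - ℓ + i)

/-- the linear predictor `2ℓ + 1 - ∑_{ℓ < j < K} c_j (δ_{m-j} + δ_{m+j} - 2)` of the sum of the
`2ℓ+1` gaps around `δ_m`; it only uses the gaps `δ_{m-j}`, `δ_{m+j}` with `ℓ < j < K` (for
`m ≥ K`) -/
noncomputable def pred (c : ℕ → ℝ) (ℓ K m : ℕ) : ℝ :=
  2 * ℓ + 1 - ∑ j ∈ Ioo ℓ K, c j * (δ (m - j) + δ (m + j) - 2)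

theorem split_sum (F : ℕ → ℝ) (K : ℕ) (hK : 1 ≤ K) :
    ∑ i ∈ range (2 * K), F i = F 0 + F K + ∑ j ∈ Ioo 0 K, (F (K - j) + F (K + j)) := by
  have h1 : ∑ i ∈ range (2 * K), F i = ∑ i ∈ range K, F i + ∑ i ∈ range K, F (K + i) := by
    rw [two_mul, sum_range_add]
  have h2 : ∑ i ∈ range K, F (K + i) = F K + ∑ j ∈ Ioo 0 K, F (K + j) := by
    have : range K = insert 0 (Ioo 0 K) := by
      ext i
      simp only [mem_range, mem_insert, mem_Ioo]
      omega
    rw [this, sum_insert (by simp), add_zero]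
  have h3 : ∑ i ∈ range K, F i = F 0 + ∑ j ∈ Ioo 0 K, F (K - j) := by
    have : range K = insert 0 (Ioo 0 K) := by
      ext i
      simp only [mem_range, mem_insert, mem_Ioo]
      omega
    rw [this, sum_insert (by simp)]
    congr 1
    refine sum_nbij' (fun i => K - i) (fun i => K - i) ?_ ?_ ?_ ?_ ?_
    · intro i hi; rw [mem_Ioo] at hi ⊢; omega
    · intro i hi; rw [mem_Ioo] at hi ⊢; omega
    · intro i hi; rw [mem_Ioo] at hi; omega
    · intro i hi; rw [mem_Ioo] at hi; omega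
    · intro i hi
      rw [mem_Ioo] at hi
      congr 1
      omega
  rw [h1, h2, h3, sum_add_distrib]
  ring

/-- On the Riemann hypothesis there is an absolute constant `C` such that for all `ℓ ≥ 0` and
`K ≥ 2(ℓ+1)` there are weights `0 ≤ c_j ≤ 1` (`ℓ < j < K`) for which the sum of the `2ℓ+1` gaps
around `δ_m` and its predictor from the other gaps `δ_{m-j}, δ_{m+j}`, `ℓ < j < K`, differ by at
most `C / log(K/(ℓ+1))` in mean square over `m ≤ N`, for all large `N`. -/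
theorem result (RH : RiemannHypothesis) :
    ∃ C : ℝ, 0 < C ∧ ∀ ℓ K : ℕ, 2 * (ℓ + 1) ≤ K → ∃ c : ℕ → ℝ, (∀ j, 0 ≤ c j ∧ c j ≤ 1) ∧
      ∃ N₀ : ℕ, ∀ N : ℕ, N₀ ≤ N →
        (∑ m ∈ Icc (K + 1) N, (block ℓ m - pred c ℓ K m) ^ 2) / N ≤
          C / Real.log ((K : ℝ) / (ℓ + 1)) := by
  obtain ⟨C, hC, H⟩ := Pool.Agent.Helper37.GL.gap_rig (Pool.Agent.Helper37.GL.hyp_zeta RH)
  refine ⟨C, hC, fun ℓ K hK => ?_⟩
  obtain ⟨c, h01, hev, h1, h0, hM⟩ := H (ℓ + 1) K (by omega) hK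
  refine ⟨fun j => c j, fun j => h01 j, ?_⟩
  obtain ⟨N₀, hN₀⟩ := eventually_atTop.1 hM
  refine ⟨max N₀ 1, fun N hN => ?_⟩
  have hN1 := hN₀ N ((le_max_left _ _).trans hN)
  have hNpos : (0 : ℝ) < N := by exact_mod_cast (le_max_right N₀ 1).trans hN
  push_cast at hN1
  rw [div_le_iff₀ hNpos]
  refine le_trans ?_ hN1
  have key : ∀ n : ℕ, 1 ≤ n → block ℓ (n + K) - pred (fun j => c j) ℓ K (n + K) =
      Pool.Agent.Helper37.GL.TT γt (fun x => c (x - K)) (2 * K) n := by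
    intro n hn
    have e1 : Pool.Agent.Helper37.GL.TT γt (fun x => c (x - K)) (2 * K) n =
        ∑ i ∈ range (2 * K), c ((i : ℝ) - K) * (δ (n + i) - 1) := rfl
    rw [e1, split_sum _ K (by omega)]
    have e2 : c (((0 : ℕ) : ℝ) - K) = 0 := by
      apply h0
      rw [Nat.cast_zero, zero_sub, abs_neg, abs_of_nonneg (Nat.cast_nonneg K)]
    have e3 : c ((K : ℝ) - K) = 1 := by
      rw [sub_self]
      apply h1
      rw [abs_zero]
      exact Nat.cast_nonneg _
    have e4 : ∀ j ∈ Ioo 0 K, c (((K - j : ℕ) : ℝ) - K) * (δ (n + (K - j)) - 1) +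
        c (((K + j : ℕ) : ℝ) - K) * (δ (n + (K + j)) - 1) =
        c j * (δ (n + K - j) + δ (n + K + j) - 2) := by
      intro j hj
      rw [mem_Ioo] at hj
      have a1 : ((K - j : ℕ) : ℝ) - K = -(j : ℝ) := by
        rw [Nat.cast_sub hj.2.le]; ring
      have a2 : ((K + j : ℕ) : ℝ) - K = (j : ℝ) := by push_cast; ring
      have a3 : n + (K - j) = n + K - j := by omega
      rw [a1, a2, a3, hev, ← add_assoc]
      ring
    rw [sum_congr rfl e4, e2, e3]
    have e5 : Ioo 0 K = Ioo 0 (ℓ + 1) ∪ Ioo ℓ K := by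
      ext j
      simp only [mem_union, mem_Ioo]
      omega
    have e6 : Disjoint (Ioo 0 (ℓ + 1)) (Ioo ℓ K) := by
      rw [disjoint_left]
      intro j h2 h3
      rw [mem_Ioo] at h2 h3
      omega
    rw [e5, sum_union e6]
    have e7 : ∑ j ∈ Ioo 0 (ℓ + 1), c j * (δ (n + K - j) + δ (n + K + j) - 2) =
        ∑ j ∈ Ioo 0 (ℓ + 1), (δ (n + K - j) + δ (n + K + j)) - 2 * ℓ := by
      have : ∀ j ∈ Ioo 0 (ℓ + 1), c j * (δ (n + K - j) + δ (n + K + j) - 2) =
          (δ (n + K - j) + δ (n + K + j)) - 2 := by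
        intro j hj
        rw [mem_Ioo] at hj
        rw [h1 j, one_mul]
        rw [abs_of_nonneg (Nat.cast_nonneg j)]
        exact_mod_cast hj.2.le
      rw [sum_congr rfl this, sum_sub_distrib, sum_const, Nat.card_Ioo, nsmul_eq_mul]
      simp
      ring
    have e8 : block ℓ (n + K) = δ (n + K) +
        ∑ j ∈ Ioo 0 (ℓ + 1), (δ (n + K - j) + δ (n + K + j)) := by
      unfold block
      have b1 := split_sum (fun i => δ (n + K - (ℓ + 1) + i)) (ℓ + 1) (by omega)
      have b2 : 2 * (ℓ + 1) = 2 * ℓ + 1 + 1 := by ring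
      rw [b2, sum_range_succ'] at b1
      have b3 : ∀ i, n + K - (ℓ + 1) + (i + 1) = n + K - ℓ + i := by
        intro i; omega
      simp_rw [b3] at b1
      have b4 : ∀ j ∈ Ioo 0 (ℓ + 1), δ (n + K - (ℓ + 1) + (ℓ + 1 - j)) +
          δ (n + K - (ℓ + 1) + (ℓ + 1 + j)) = δ (n + K - j) + δ (n + K + j) := by
        intro j hj
        rw [mem_Ioo] at hj
        have c1 : n + K - (ℓ + 1) + (ℓ + 1 - j) = n + K - j := by omega
        have c2 : n + K - (ℓ + 1) + (ℓ + 1 + j) = n + K + j := by omega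
        rw [c1, c2]
      rw [sum_congr rfl b4] at b1
      have b5 : n + K - ℓ + ℓ = n + K := by omega
      rw [b5] at b1
      linarith
    rw [e8, e7]
    unfold pred
    ring
  calc ∑ m ∈ Icc (K + 1) N, (block ℓ m - pred (fun j => c j) ℓ K m) ^ 2
      = ∑ n ∈ Icc 1 (N - K), (block ℓ (n + K) - pred (fun j => c j) ℓ K (n + K)) ^ 2 := by
        refine sum_nbij' (fun m => m - K) (fun n => n + K) ?_ ?_ ?_ ?_ ?_
        · intro m hm; rw [mem_Icc] at hm ⊢; omega
        · intro m hm; rw [mem_Icc] at hm ⊢; omega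
        · intro m hm; rw [mem_Icc] at hm; omega
        · intro m hm; omega
        · intro m hm
          rw [mem_Icc] at hm
          have : m - K + K = m := by omega
          rw [this]
    _ = ∑ n ∈ Icc 1 (N - K),
          Pool.Agent.Helper37.GL.TT γt (fun x => c (x - K)) (2 * K) n ^ 2 := by
        refine sum_congr rfl fun n hn => ?_
        rw [mem_Icc] at hn
        rw [key n hn.1]
    _ ≤ ∑ n ∈ Icc 1 N, Pool.Agent.Helper37.GL.TT γt (fun x => c (x - K)) (2 * K) n ^ 2 :=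
        sum_le_sum_of_subset_of_nonneg (Icc_subset_Icc le_rfl (Nat.sub_le _ _))
          fun _ _ _ => sq_nonneg _

end Pool.Agent.Results.MP_21f43f_nt.GapRigidity
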