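import Pool.Agent.Helper77.RS.Uni

open Filter MeasureTheory ProbabilityTheory

namespace Pool.Agent.Results.MP_21f43f_nt.GaussianSums

/-- multiplicity of `s` as a zero of the Riemann zeta function (order of vanishing at `s`) -/
noncomputable def zmult (s : ℂ) : ℕ := analyticOrderNatAt riemannZeta s

/-- the number of nontrivial zeros of `ζ` with ordinate in `(0, t]`, with multiplicity -/
noncomputable def NZ (t : ℝ) : ℕ :=
  ∑ᶠ s ∈ {s : ℂ | riemannZeta s = 0 ∧ 0 < s.re ∧ s.re < 1 ∧ 0 < s.im ∧ s.im ≤ t}, zmult s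

/-- for `n ≥ 1`: the `n`-th positive ordinate `γ n` of a nontrivial zero of `ζ`, the ordinates being
listed in nondecreasing order and repeated according to multiplicity -/
noncomputable def γ (n : ℕ) : ℝ := sInf {t : ℝ | n ≤ NZ t}

/-- the normalised gaps `δ_n = (γ_{n+1} log γ_{n+1} - γ_n log γ_n) / 2π` -/
noncomputable def δ (n : ℕ) : ℝ :=
  (γ (n + 1) * Real.log (γ (n + 1)) - γ n * Real.log (γ n)) / (2 * Real.pi)

/-- the sum of `r` consecutive normalised gaps, `δ_n + ⋯ + δ_{n+r-1}`: the normalised distance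
from the `n`-th zero to its `r`-th neighbour -/
noncomputable def S (r n : ℕ) : ℝ := ∑ j ∈ Finset.range r, δ (n + j)

/-- On the Riemann hypothesis the normalised distances of `r`-th neighbours satisfy the central
limit theorem of the GUE: for large `r` the distribution of `π (S_r(n) - r) / √(log r)`, `n ≤ N`, is
within `ε` of the standard normal distribution, uniformly (Kolmogorov distance), for all large `N`. -/
theorem result (RH : RiemannHypothesis) (ε : ℝ) (hε : 0 < ε) :
    ∀ᶠ r : ℕ in atTop, ∀ᶠ N : ℕ in atTop, ∀ z : ℝ,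
      |(((Finset.Icc 1 N).filter (fun n => S r n ≤ r + z * (√(Real.log r) / Real.pi))).card : ℝ) / N -
        (gaussianReal 0 1).real (Set.Iic z)| ≤ ε := by
  filter_upwards [Helper77.RS.uniform_clt RH hε] with r hr
  filter_upwards [hr, eventually_gt_atTop 0] with N hN hN0 z
  have hNpos : (0 : ℝ) < N := by exact_mod_cast hN0
  have hS : ∀ n, S r n = H707.NB.sp n r := fun n => H707.NB.sp_sum n r
  have h := hN z
  unfold Helper77.RS.cnt Helper77.RS.Ph Helper77.RS.sg at h
  simp_rw [hS]
  rw [abs_le] at h ⊢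
  constructor
  · rw [le_sub_iff_add_le, le_div_iff₀ hNpos]
    linarith [h.1]
  · rw [sub_le_iff_le_add, div_le_iff₀ hNpos]
    linarith [h.2]

end Pool.Agent.Results.MP_21f43f_nt.GaussianSums
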