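import Pool.Agent.Helper37.GL.Lfs
import Pool.Agent.Helper37.GL.Zeta

open Filter MeasureTheory
open scoped FourierTransform

namespace Pool.Agent.Results.MP_21f43f_nt.LowFrequencySpectrum

/-- multiplicity of `s` as a zero of the Riemann zeta function (order of vanishing at `s`) -/
noncomputable def zmult (s : ℂ) : ℕ := analyticOrderNatAt riemannZeta s

/-- the number of nontrivial zeros of `ζ` with ordinate in `(0, t]`, with multiplicity -/
noncomputable def NZ (t : ℝ) : ℕ :=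
  ∑ᶠ s ∈ {s : ℂ | riemannZeta s = 0 ∧ 0 < s.re ∧ s.re < 1 ∧ 0 < s.im ∧ s.im ≤ t}, zmult s

/-- for `n ≥ 1`: the `n`-th positive ordinate `γ n` of a nontrivial zero of `ζ`, the ordinates being
listed in nondecreasing order and repeated according to multiplicity -/
noncomputable def γ (n : ℕ) : ℝ := sInf {t : ℝ | n ≤ NZ t}

/-- the normalised ordinate `γ_n log γ_n / 2π` -/
noncomputable def γt (n : ℕ) : ℝ := γ n * Real.log (γ n) / (2 * Real.pi)

/-- the normalised gap `δ_n` between the `n`-th and the `(n+1)`-st zero -/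
noncomputable def δ (n : ℕ) : ℝ := γt (n + 1) - γt n

/-- the smooth linear statistic `∑_{i < r} b(i/r) (δ_{n+i} - 1)` of the `r` gaps `δ_n, …, δ_{n+r-1}` -/
noncomputable def S (b : ℝ → ℝ) (r n : ℕ) : ℝ :=
  ∑ i ∈ Finset.range r, b ((i : ℝ) / r) * (δ (n + i) - 1)

/-- the square of the homogeneous Sobolev norm of order `1/2`: `∫ |τ| |b^(τ)|² dτ` with
`b^(τ) = ∫ b(x) exp(-2πixτ) dx` -/
noncomputable def H (b : ℝ → ℝ) : ℝ := ∫ τ : ℝ, |τ| * ‖𝓕 (fun x => (b x : ℂ)) τ‖ ^ 2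

/-- On the Riemann hypothesis, for every twice continuously differentiable `b` supported in `[0, 1]`
the integral `H b` converges, and the mean square of the statistic `S b r n` over `n ≤ N` tends to
`H b` as `N → ∞` and then `r → ∞`: for every `ε > 0`, for all `r ≥ r₀(b, ε)` and all
`N ≥ N₀(b, ε, r)`, the mean square differs from `H b` by at most `ε`. -/
theorem result (RH : RiemannHypothesis) (b : ℝ → ℝ) (hb : ContDiff ℝ 2 b)
    (hs : ∀ x, x ∉ Set.Ioo (0 : ℝ) 1 → b x = 0) :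
    (Integrable fun τ : ℝ => |τ| * ‖𝓕 (fun x => (b x : ℂ)) τ‖ ^ 2) ∧
    ∀ ε : ℝ, 0 < ε → ∃ r₀ : ℕ, ∀ r : ℕ, r₀ ≤ r → ∃ N₀ : ℕ, ∀ N : ℕ, N₀ ≤ N →
      |(∑ n ∈ Finset.Icc 1 N, S b r n ^ 2) / N - H b| ≤ ε := by
  refine ⟨Pool.Agent.Helper37.GL.int_P hb hs, fun ε hε => ?_⟩
  obtain ⟨r₀, h⟩ := Pool.Agent.Helper37.GL.lfs (Pool.Agent.Helper37.GL.hyp_zeta RH) hb hs ε hε
  refine ⟨r₀, fun r hr => ?_⟩
  obtain ⟨N₀, hN⟩ := eventually_atTop.1 (h r hr)
  refine ⟨max N₀ 1, fun N hN1 => ?_⟩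
  have h1 := hN N ((le_max_left _ _).trans hN1)
  have hN0 : (0 : ℝ) < N := by exact_mod_cast (le_max_right N₀ 1).trans hN1
  have e : (∑ n ∈ Finset.Icc 1 N, S b r n ^ 2) / N - H b =
      (∑ n ∈ Finset.Icc 1 N, S b r n ^ 2 - H b * N) / N := by
    field_simp
  rw [e, abs_div, abs_of_pos hN0, div_le_iff₀ hN0]
  exact h1

end Pool.Agent.Results.MP_21f43f_nt.LowFrequencySpectrum
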